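import Pool.Agent.L5helper98.GEF.Prob

/-!
# Coefficients close to those of `exp (z²/2)` give a hole in a flat rectangle (helper98)
-/

set_option autoImplicit false
open MeasureTheory ProbabilityTheory Filter Topology Set
open scoped ENNReal NNReal

namespace Pool.Agent.L5helper98.GEF

/-- The coefficients of `exp (z²/2)` in the basis `z^n/√n!`. -/
noncomputable def bc (n : ℕ) : ℂ :=
  if Even n then (((Real.sqrt (n.factorial : ℝ)) / (2 ^ (n / 2) * ((n / 2).factorial : ℝ)) : ℝ) : ℂ)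
  else 0

lemma sqrt_fact_pos (n : ℕ) : 0 < Real.sqrt (n.factorial : ℝ) :=
  Real.sqrt_pos.2 (by exact_mod_cast n.factorial_pos)

lemma bc_norm_le (n : ℕ) : ‖bc n‖ ≤ 1 := by
  unfold bc
  split_ifs with h
  · obtain ⟨k, hk⟩ := h
    have hk2 : n / 2 = k := by omega
    rw [hk2, Complex.norm_real, Real.norm_eq_abs, abs_of_nonneg (by positivity)]
    rw [div_le_one (by positivity)]
    rw [Real.sqrt_le_left (by positivity)]
    have h1 : (n.factorial : ℝ) = (n.choose k : ℝ) * (k.factorial : ℝ) * (k.factorial : ℝ) := by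
      have h2 := Nat.choose_mul_factorial_mul_factorial (n := n) (k := k) (by omega)
      have h3 : n - k = k := by omega
      rw [h3] at h2
      exact_mod_cast h2.symm
    have h4 : (n.choose k : ℝ) ≤ 2 ^ n := by exact_mod_cast Nat.choose_le_two_pow n k
    rw [h1]
    have h5 : (2 : ℝ) ^ n = 2 ^ k * 2 ^ k := by rw [hk, pow_add]
    rw [h5] at h4
    calc (n.choose k : ℝ) * (k.factorial : ℝ) * (k.factorial : ℝ)
        ≤ (2 ^ k * 2 ^ k) * (k.factorial : ℝ) * (k.factorial : ℝ) := by gcongr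
      _ = (2 ^ k * (k.factorial : ℝ)) ^ 2 := by ring
  · simp

lemma bc_hasSum (Z : ℂ) :
    HasSum (fun n : ℕ => bc n * (Z ^ n / ((Real.sqrt (n.factorial : ℝ) : ℝ) : ℂ)))
      (Complex.exp (Z ^ 2 / 2)) := by
  have he : HasSum (fun k : ℕ => bc (2 * k) *
      (Z ^ (2 * k) / ((Real.sqrt ((2 * k).factorial : ℝ) : ℝ) : ℂ))) (Complex.exp (Z ^ 2 / 2)) := by
    have h1 : HasSum (fun k : ℕ => ((k.factorial : ℂ)⁻¹) • (Z ^ 2 / 2) ^ k)
        (Complex.exp (Z ^ 2 / 2)) := by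
      rw [Complex.exp_eq_exp_ℂ]
      exact NormedSpace.exp_series_hasSum_exp' (𝕂 := ℂ) (Z ^ 2 / 2)
    refine h1.congr_fun ?_
    intro k
    have hk2 : 2 * k / 2 = k := by omega
    have hne : ((Real.sqrt ((2 * k).factorial : ℝ) : ℝ) : ℂ) ≠ 0 :=
      Complex.ofReal_ne_zero.2 (sqrt_fact_pos _).ne'
    have hne2 : ((k.factorial : ℕ) : ℂ) ≠ 0 := by exact_mod_cast k.factorial_ne_zero
    simp only [bc, even_two_mul, if_true, hk2]
    push_cast
    rw [smul_eq_mul, div_pow, pow_mul]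
    field_simp
  have ho : HasSum (fun k : ℕ => bc (2 * k + 1) *
      (Z ^ (2 * k + 1) / ((Real.sqrt ((2 * k + 1).factorial : ℝ) : ℝ) : ℂ))) 0 := by
    have : (fun k : ℕ => bc (2 * k + 1) *
      (Z ^ (2 * k + 1) / ((Real.sqrt ((2 * k + 1).factorial : ℝ) : ℝ) : ℂ))) = fun _ => 0 := by
      funext k
      have hodd : ¬ Even (2 * k + 1) := by
        rw [Nat.not_even_iff_odd]; exact odd_two_mul_add_one k
      simp [bc, hodd]
    rw [this]
    exact hasSum_zero
  have := he.even_add_odd (f := fun n : ℕ => bc n * (Z ^ n / ((Real.sqrt (n.factorial : ℝ) : ℝ) : ℂ))) ho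
  simpa using this

/-- `t^n/√n! ≤ exp (t²/2)` for `t ≥ 0`. -/
lemma term_le {t : ℝ} (ht : 0 ≤ t) (n : ℕ) :
    t ^ n / Real.sqrt (n.factorial : ℝ) ≤ Real.exp (t ^ 2 / 2) := by
  have h1 : (t ^ 2) ^ n / (n.factorial : ℝ) ≤ Real.exp (t ^ 2) :=
    Real.pow_div_factorial_le_exp (t ^ 2) (by positivity) n
  have h2 : t ^ n / Real.sqrt (n.factorial : ℝ) = Real.sqrt ((t ^ 2) ^ n / (n.factorial : ℝ)) := by
    rw [Real.sqrt_div (by positivity)]
    congr 1
    rw [← pow_mul, mul_comm, pow_mul, Real.sqrt_sq (by positivity)]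
  have h3 : Real.exp (t ^ 2 / 2) = Real.sqrt (Real.exp (t ^ 2)) := by
    rw [← Real.exp_half]
  rw [h2, h3]
  exact Real.sqrt_le_sqrt h1

/-- The deterministic hole lemma. -/
lemma ne_zero_of_close {x : ℕ → ℂ} {Z : ℂ} {a R : ℝ} {N : ℕ} (ha : 0 < a) (hR : 1 ≤ R)
    (h1 : ∀ n ≤ N, ‖x n - bc n‖ ≤ a) (h2 : ∀ n, N < n → ‖x n - bc n‖ ≤ 2 ^ n)
    (hZ : ‖Z‖ ^ 2 ≤ 2 * R)
    (hre : -(R / 2) ≤ (Z ^ 2 / 2).re)
    (ha2 : ((N : ℝ) + 1) * a * Real.exp (‖Z‖ ^ 2 / 2) ≤ 1 / 4 * Real.exp ((Z ^ 2 / 2).re))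
    (hN : 30 * R ≤ N) :
    ∑' n : ℕ, x n * (Z ^ n / ((Real.sqrt (n.factorial : ℝ) : ℝ) : ℂ)) ≠ 0 := by
  set t := ‖Z‖ with ht
  have ht0 : 0 ≤ t := norm_nonneg _
  set u : ℕ → ℂ := fun n => (x n - bc n) * (Z ^ n / ((Real.sqrt (n.factorial : ℝ) : ℝ) : ℂ)) with hu
  have hnorm : ∀ n, ‖u n‖ = ‖x n - bc n‖ * (t ^ n / Real.sqrt (n.factorial : ℝ)) := by
    intro n
    simp only [hu, norm_mul, norm_div, norm_pow, Complex.norm_real, Real.norm_eq_abs,
      abs_of_pos (sqrt_fact_pos n), ht]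
  -- the majorant
  set g : ℕ → ℝ := fun n => (if n ≤ N then a * Real.exp (t ^ 2 / 2) else 0) +
    (if n ≤ N then 0 else Real.exp (16 * R) * (1 / 2) ^ n) with hg
  have hle : ∀ n, ‖u n‖ ≤ g n := by
    intro n
    rw [hnorm]
    by_cases hn : n ≤ N
    · simp only [hg, if_pos hn, add_zero]
      exact mul_le_mul (h1 n hn) (term_le ht0 n) (by positivity) ha.le
    · simp only [hg, if_neg hn, zero_add]
      have h3 : (4 * t) ^ n / Real.sqrt (n.factorial : ℝ) ≤ Real.exp ((4 * t) ^ 2 / 2) :=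
        term_le (by positivity) n
      have h4 : Real.exp ((4 * t) ^ 2 / 2) ≤ Real.exp (16 * R) := by
        apply Real.exp_le_exp.2
        nlinarith
      have h5 : (2 : ℝ) ^ n * (t ^ n / Real.sqrt (n.factorial : ℝ)) =
          (4 * t) ^ n / Real.sqrt (n.factorial : ℝ) * (1 / 2) ^ n := by
        rw [mul_pow]
        have : (2 : ℝ) ^ n = 4 ^ n * (1 / 2) ^ n := by
          rw [← mul_pow]; norm_num
        rw [this]; ring
      calc ‖x n - bc n‖ * (t ^ n / Real.sqrt (n.factorial : ℝ))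
          ≤ 2 ^ n * (t ^ n / Real.sqrt (n.factorial : ℝ)) :=
            mul_le_mul_of_nonneg_right (h2 n (not_le.1 hn)) (by positivity)
        _ = (4 * t) ^ n / Real.sqrt (n.factorial : ℝ) * (1 / 2) ^ n := h5
        _ ≤ Real.exp (16 * R) * (1 / 2) ^ n := by
            apply mul_le_mul_of_nonneg_right (h3.trans h4) (by positivity)
  have hg1 : HasSum (fun n : ℕ => if n ≤ N then a * Real.exp (t ^ 2 / 2) else 0)
      (((N : ℝ) + 1) * (a * Real.exp (t ^ 2 / 2))) := by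
    have h3 : HasSum (fun n : ℕ => if n ≤ N then a * Real.exp (t ^ 2 / 2) else 0)
        (∑ n ∈ Finset.range (N + 1), if n ≤ N then a * Real.exp (t ^ 2 / 2) else 0) := by
      apply hasSum_sum_of_ne_finset_zero
      intro n hn
      rw [if_neg]
      simpa [Nat.lt_succ_iff] using hn
    have h4 : (∑ n ∈ Finset.range (N + 1), if n ≤ N then a * Real.exp (t ^ 2 / 2) else 0)
        = ((N : ℝ) + 1) * (a * Real.exp (t ^ 2 / 2)) := by
      rw [Finset.sum_congr rfl (g := fun _ => a * Real.exp (t ^ 2 / 2))]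
      · rw [Finset.sum_const, Finset.card_range, nsmul_eq_mul]; push_cast; ring
      · intro n hn
        rw [if_pos (Nat.lt_succ_iff.1 (Finset.mem_range.1 hn))]
    rwa [h4] at h3
  have hg2 : HasSum (fun n : ℕ => if n ≤ N then (0 : ℝ) else Real.exp (16 * R) * (1 / 2) ^ n)
      (Real.exp (16 * R) * (1 / 2) ^ N) := by
    have h3 : HasSum (fun n : ℕ => (1 / 2 : ℝ) ^ n) 2 := by
      have := hasSum_geometric_two
      exact this
    have h4 : HasSum (fun n : ℕ => Real.exp (16 * R) * (1 / 2 : ℝ) ^ (N + 1) * (1 / 2 : ℝ) ^ n)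
        (Real.exp (16 * R) * (1 / 2 : ℝ) ^ (N + 1) * 2) := h3.mul_left _
    have h5 : Real.exp (16 * R) * (1 / 2 : ℝ) ^ (N + 1) * 2 = Real.exp (16 * R) * (1 / 2) ^ N := by
      rw [pow_succ]; ring
    rw [h5] at h4
    rw [← hasSum_nat_add_iff' (N + 1)]
    have h6 : ∑ i ∈ Finset.range (N + 1),
        (if i ≤ N then (0 : ℝ) else Real.exp (16 * R) * (1 / 2) ^ i) = 0 := by
      apply Finset.sum_eq_zero
      intro i hi
      rw [if_pos (Nat.lt_succ_iff.1 (Finset.mem_range.1 hi))]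
    rw [h6, sub_zero]
    refine h4.congr_fun ?_
    intro n
    rw [if_neg (by omega), pow_add]
    ring
  have hgsum : HasSum g (((N : ℝ) + 1) * (a * Real.exp (t ^ 2 / 2)) +
      Real.exp (16 * R) * (1 / 2) ^ N) := hg1.add hg2
  have husum : Summable u := Summable.of_norm_bounded hgsum.summable hle
  have hub : ‖∑' n, u n‖ ≤ ((N : ℝ) + 1) * (a * Real.exp (t ^ 2 / 2)) +
      Real.exp (16 * R) * (1 / 2) ^ N := tsum_of_norm_bounded hgsum hle
  have hE := bc_hasSum Z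
  have htot : ∑' n : ℕ, x n * (Z ^ n / ((Real.sqrt (n.factorial : ℝ) : ℝ) : ℂ)) =
      Complex.exp (Z ^ 2 / 2) + ∑' n, u n := by
    have h3 := (hE.add husum.hasSum).tsum_eq
    rw [← h3]
    congr 1
    funext n
    simp only [hu]
    ring
  rw [htot]
  -- the tail
  have htail : Real.exp (16 * R) * (1 / 2 : ℝ) ^ N ≤ 1 / 4 * Real.exp ((Z ^ 2 / 2).re) := by
    have h3 : (1 / 2 : ℝ) ^ N ≤ Real.exp (-(18 * R + 2)) := by
      have hl : (0.69 : ℝ) < Real.log 2 := by linarith [Real.log_two_gt_d9]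
      have h4 : (1 / 2 : ℝ) ^ N = Real.exp (-(N * Real.log 2)) := by
        rw [Real.exp_neg, ← Real.log_pow, Real.exp_log (by positivity), one_div, inv_pow]
      rw [h4]
      apply Real.exp_le_exp.2
      have : 18 * R + 2 ≤ N * Real.log 2 := by nlinarith
      linarith
    have h5 : Real.exp (-2 : ℝ) ≤ 1 / 4 := by
      have h6 : (2 : ℝ) ≤ Real.exp 1 := by linarith [Real.exp_one_gt_d9]
      have h7 : Real.exp (-2 : ℝ) = (Real.exp 1 * Real.exp 1)⁻¹ := by
        rw [← Real.exp_add, ← Real.exp_neg]; norm_num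
      rw [h7, one_div]
      apply inv_anti₀ (by norm_num)
      nlinarith
    have h8 : Real.exp (16 * R) * (1 / 2 : ℝ) ^ N ≤ Real.exp (-2) * Real.exp (-(2 * R)) := by
      calc Real.exp (16 * R) * (1 / 2 : ℝ) ^ N
          ≤ Real.exp (16 * R) * Real.exp (-(18 * R + 2)) :=
            mul_le_mul_of_nonneg_left h3 (Real.exp_pos _).le
        _ = Real.exp (-2) * Real.exp (-(2 * R)) := by
            rw [← Real.exp_add, ← Real.exp_add]; congr 1; ring
    refine h8.trans ?_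
    apply mul_le_mul h5 _ (Real.exp_pos _).le (by norm_num)
    apply Real.exp_le_exp.2
    linarith
  intro h0
  have h3 : Complex.exp (Z ^ 2 / 2) = -∑' n, u n := by
    linear_combination h0
  have h4 : ‖Complex.exp (Z ^ 2 / 2)‖ = ‖∑' n, u n‖ := by rw [h3, norm_neg]
  rw [Complex.norm_exp] at h4
  have h5 : Real.exp ((Z ^ 2 / 2).re) ≤ 1 / 2 * Real.exp ((Z ^ 2 / 2).re) := by
    calc Real.exp ((Z ^ 2 / 2).re) = ‖∑' n, u n‖ := h4
      _ ≤ _ := hub
      _ ≤ 1 / 4 * Real.exp ((Z ^ 2 / 2).re) + 1 / 4 * Real.exp ((Z ^ 2 / 2).re) := by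
        apply add_le_add _ htail
        rw [← mul_assoc]
        exact ha2
      _ = _ := by ring
  have := Real.exp_pos ((Z ^ 2 / 2).re)
  linarith

end Pool.Agent.L5helper98.GEF
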