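import Pool.Agent.L5helper98.GEF.Defs

/-!
# The logarithmic capacity of a rectangle containing `[-1, 1]` is at least `e⁻¹` (helper98)
-/

set_option autoImplicit false
open MeasureTheory ProbabilityTheory Filter Topology Set
open scoped ENNReal NNReal

namespace Pool.Agent.L5helper98.GEF

/-- The uniform law on `[-1, 1]`. -/
noncomputable def nu : Measure ℝ := (1 / 2 : ℝ≥0∞) • volume.restrict (Icc (-1 : ℝ) 1)

instance : IsProbabilityMeasure nu := by
  constructor
  simp only [nu, Measure.smul_apply, Measure.restrict_apply_univ, Real.volume_Icc, smul_eq_mul]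
  norm_num
  rw [ENNReal.inv_mul_cancel] <;> norm_num

lemma integral_nu (f : ℝ → ℝ) : ∫ x, f x ∂nu = 1 / 2 * ∫ x in (-1 : ℝ)..1, f x := by
  rw [nu, integral_smul_measure, integral_Icc_eq_integral_Ioc,
    ← intervalIntegral.integral_of_le (by norm_num)]
  simp

lemma integrable_nu {f : ℝ → ℝ} (hf : IntervalIntegrable f volume (-1) 1) : Integrable f nu := by
  rw [nu]
  apply Integrable.smul_measure _ (by simp)
  rw [intervalIntegrable_iff_integrableOn_Icc_of_le (by norm_num)] at hf
  exact hf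

lemma ae_nu : ∀ᵐ x ∂nu, x ∈ Icc (-1 : ℝ) 1 := by
  rw [nu]
  apply Measure.ae_smul_measure
  exact ae_restrict_mem measurableSet_Icc

lemma inner_int (x : ℝ) : IntervalIntegrable (fun y => Real.log (x - y)) volume (-1) 1 := by
  have h : IntervalIntegrable Real.log volume (x - (-1)) (x - 1) :=
    intervalIntegral.intervalIntegrable_log'
  have := h.comp_sub_left x
  simpa using this

/-- The potential of `[-1,1]`. -/
noncomputable def pot (x : ℝ) : ℝ :=
  1 / 2 * ((x + 1) * Real.log (x + 1) - (x - 1) * Real.log (x - 1) - 2)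

lemma inner_val (x : ℝ) : ∫ y, Real.log (x - y) ∂nu = pot x := by
  rw [integral_nu, intervalIntegral.integral_comp_sub_left (fun u => Real.log u) x, integral_log,
    pot]
  ring_nf

lemma pot_cont : Continuous pot := by
  unfold pot
  have h1 : Continuous fun x : ℝ => x * Real.log x := Real.continuous_mul_log
  have h2 : Continuous fun x : ℝ => (x + 1) * Real.log (x + 1) := h1.comp (continuous_id.add continuous_const)
  have h3 : Continuous fun x : ℝ => (x - 1) * Real.log (x - 1) := h1.comp (continuous_id.sub continuous_const)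
  fun_prop

lemma pot_ge {x : ℝ} (hx : x ∈ Icc (-1 : ℝ) 1) : -1 ≤ pot x := by
  have key : ∀ t : ℝ, 0 ≤ t → t - 1 ≤ t * Real.log t := by
    intro t ht
    rcases ht.eq_or_lt with h | h
    · rw [← h]; norm_num
    · have h1 := Real.log_le_sub_one_of_pos (inv_pos.2 h)
      rw [Real.log_inv] at h1
      have h2 : t * (-Real.log t) ≤ t * (t⁻¹ - 1) := mul_le_mul_of_nonneg_left h1 ht
      have h3 : t * (t⁻¹ - 1) = 1 - t := by field_simp
      linarith
  have h1 := key (x + 1) (by linarith [hx.1])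
  have h2 := key (1 - x) (by linarith [hx.2])
  have h3 : (x - 1) * Real.log (x - 1) = -((1 - x) * Real.log (1 - x)) := by
    rw [← Real.log_neg_eq_log (x - 1)]
    ring_nf
  unfold pot
  rw [h3]
  linarith

lemma int_log_nu : Integrable (fun p : ℝ × ℝ => Real.log (p.1 - p.2)) (nu.prod nu) := by
  have hmeas : Measurable (fun p : ℝ × ℝ => Real.log (p.1 - p.2)) :=
    Real.measurable_log.comp (measurable_fst.sub measurable_snd)
  have hmeas2 : Measurable (fun p : ℝ × ℝ => Real.log 2 - Real.log (p.1 - p.2)) :=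
    measurable_const.sub hmeas
  have h : Integrable (fun p : ℝ × ℝ => Real.log 2 - Real.log (p.1 - p.2)) (nu.prod nu) := by
    rw [integrable_prod_iff hmeas2.aestronglyMeasurable]
    constructor
    · filter_upwards with x
      exact (integrable_const _).sub (integrable_nu (inner_int x))
    · have h1 : (fun x => ∫ y, ‖Real.log 2 - Real.log (x - y)‖ ∂nu) =ᵐ[nu]
          fun x => Real.log 2 - pot x := by
        filter_upwards [ae_nu] with x hx
        have h2 : ∀ᵐ y ∂nu, ‖Real.log 2 - Real.log (x - y)‖ = Real.log 2 - Real.log (x - y) := by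
          filter_upwards [ae_nu] with y hy
          rw [Real.norm_eq_abs, abs_of_nonneg]
          have h3 : |x - y| ≤ 2 := by
            rw [abs_le]; constructor <;> linarith [hx.1, hx.2, hy.1, hy.2]
          rw [← Real.log_abs (x - y)]
          rcases (abs_nonneg (x - y)).eq_or_lt with h4 | h4
          · rw [← h4, Real.log_zero, sub_zero]; exact Real.log_nonneg (by norm_num)
          · linarith [Real.log_le_log h4 h3]
        rw [integral_congr_ae h2, integral_sub (integrable_const _) (integrable_nu (inner_int x)),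
          inner_val, integral_const]
        simp
      rw [integrable_congr h1]
      exact integrable_nu ((continuous_const.sub pot_cont).intervalIntegrable _ _)
  have h2 := (integrable_const (Real.log 2)).sub h
  refine h2.congr ?_
  filter_upwards with p
  simp

lemma energy_nu : -1 ≤ ∫ p : ℝ × ℝ, Real.log (p.1 - p.2) ∂(nu.prod nu) := by
  rw [integral_prod _ int_log_nu]
  have h1 : ∀ x : ℝ, ∫ y, Real.log ((x, y).1 - (x, y).2) ∂nu = pot x := inner_val
  simp only [h1]
  have h2 : ∫ _ : ℝ, (-1 : ℝ) ∂nu ≤ ∫ x, pot x ∂nu := by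
    apply integral_mono_ae (integrable_const _)
      (integrable_nu (pot_cont.intervalIntegrable _ _))
    filter_upwards [ae_nu] with x hx
    exact pot_ge hx
  simpa using h2

lemma logCap_rect {η : ℝ} (hη0 : 0 < η) (hη1 : η ≤ 1) : Real.exp (-1) ≤ logCap (rect η) := by
  set μ : Measure ℂ := nu.map (fun x : ℝ => (x : ℂ)) with hμ
  have hmo : Measurable (fun x : ℝ => (x : ℂ)) := Complex.measurable_ofReal
  have hprob : IsProbabilityMeasure μ := Measure.isProbabilityMeasure_map hmo.aemeasurable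
  have hprod : μ.prod μ = (nu.prod nu).map (Prod.map (fun x : ℝ => (x : ℂ)) fun x : ℝ => (x : ℂ)) := by
    rw [hμ, Measure.map_prod_map _ _ hmo hmo]
  have hmk : Measurable (fun p : ℂ × ℂ => Real.log ‖p.1 - p.2‖) :=
    Real.measurable_log.comp (measurable_fst.sub measurable_snd).norm
  have hcomp : (fun p : ℂ × ℂ => Real.log ‖p.1 - p.2‖) ∘
      (Prod.map (fun x : ℝ => (x : ℂ)) fun x : ℝ => (x : ℂ)) = fun p : ℝ × ℝ => Real.log (p.1 - p.2) := by
    funext p
    simp only [Function.comp_apply, Prod.map_fst, Prod.map_snd]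
    rw [← Complex.ofReal_sub, Complex.norm_real, Real.norm_eq_abs, Real.log_abs]
  have hint : Integrable (fun p : ℂ × ℂ => Real.log ‖p.1 - p.2‖) (μ.prod μ) := by
    rw [hprod, integrable_map_measure hmk.aestronglyMeasurable (hmo.prodMap hmo).aemeasurable, hcomp]
    exact int_log_nu
  have hval : ∫ p : ℂ × ℂ, Real.log ‖p.1 - p.2‖ ∂(μ.prod μ) =
      ∫ p : ℝ × ℝ, Real.log (p.1 - p.2) ∂(nu.prod nu) := by
    rw [hprod, integral_map (hmo.prodMap hmo).aemeasurable hmk.aestronglyMeasurable]
    exact congrArg (fun f : ℝ × ℝ → ℝ => ∫ p, f p ∂(nu.prod nu)) hcomp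
  have hmeasR : MeasurableSet (rect η) := by
    have : rect η = (fun z : ℂ => |z.re|) ⁻¹' Iic 1 ∩ (fun z : ℂ => |z.im|) ⁻¹' Iic η := rfl
    rw [this]
    exact ((Complex.measurable_re.abs) measurableSet_Iic).inter
      ((Complex.measurable_im.abs) measurableSet_Iic)
  have hmem : Real.exp (∫ p : ℂ × ℂ, Real.log ‖p.1 - p.2‖ ∂(μ.prod μ)) ∈
      {c : ℝ | ∃ μ : Measure ℂ, IsProbabilityMeasure μ ∧ μ (rect η)ᶜ = 0 ∧ (∀ z, μ {z} = 0) ∧
        Integrable (fun p : ℂ × ℂ => Real.log ‖p.1 - p.2‖) (μ.prod μ) ∧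
        c = Real.exp (∫ p : ℂ × ℂ, Real.log ‖p.1 - p.2‖ ∂(μ.prod μ))} := by
    refine ⟨μ, hprob, ?_, ?_, hint, rfl⟩
    · rw [hμ, Measure.map_apply hmo hmeasR.compl]
      have h := ae_nu
      rw [ae_iff] at h
      refine measure_mono_null ?_ h
      intro x hx
      simp only [mem_preimage, mem_compl_iff, rect, mem_ofPred_eq, Complex.ofReal_re,
        Complex.ofReal_im, abs_zero, not_and, not_le] at hx
      show ¬ (x ∈ Icc (-1 : ℝ) 1)
      rintro ⟨h1, h2⟩
      have := hx (abs_le.2 ⟨h1, h2⟩)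
      linarith
    · intro z
      rw [hμ, Measure.map_apply hmo (measurableSet_singleton z)]
      have h1 : (fun x : ℝ => (x : ℂ)) ⁻¹' {z} ⊆ {z.re} := by
        intro x hx
        simp only [mem_preimage, mem_singleton_iff] at hx ⊢
        rw [← hx, Complex.ofReal_re]
      refine measure_mono_null h1 ?_
      rw [nu, Measure.smul_apply]
      simp
  have hbdd : BddAbove {c : ℝ | ∃ μ : Measure ℂ, IsProbabilityMeasure μ ∧ μ (rect η)ᶜ = 0 ∧
      (∀ z, μ {z} = 0) ∧ Integrable (fun p : ℂ × ℂ => Real.log ‖p.1 - p.2‖) (μ.prod μ) ∧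
        c = Real.exp (∫ p : ℂ × ℂ, Real.log ‖p.1 - p.2‖ ∂(μ.prod μ))} := by
    refine ⟨4, ?_⟩
    rintro c ⟨m, hm, hK, -, hi, rfl⟩
    have hae : ∀ᵐ z ∂m, z ∈ rect η := by
      rw [ae_iff]; exact hK
    have h1 : ∀ᵐ p ∂(m.prod m), p.1 ∈ rect η :=
      (Measure.quasiMeasurePreserving_fst (μ := m) (ν := m)).ae hae
    have h2 : ∀ᵐ p ∂(m.prod m), p.2 ∈ rect η :=
      (Measure.quasiMeasurePreserving_snd (μ := m) (ν := m)).ae hae
    have h3 : ∫ p : ℂ × ℂ, Real.log ‖p.1 - p.2‖ ∂(m.prod m) ≤ ∫ _ : ℂ × ℂ, Real.log 4 ∂(m.prod m) := by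
      apply integral_mono_ae hi (integrable_const _)
      filter_upwards [h1, h2] with p hp1 hp2
      have h4 : ‖p.1 - p.2‖ ≤ 4 := by
        have h5 : ∀ z ∈ rect η, ‖z‖ ≤ 2 := by
          intro z hz
          refine (Complex.norm_le_abs_re_add_abs_im z).trans ?_
          linarith [hz.1, hz.2]
        have := norm_sub_le p.1 p.2
        linarith [h5 _ hp1, h5 _ hp2]
      rcases (norm_nonneg (p.1 - p.2)).eq_or_lt with h5 | h5
      · show Real.log ‖p.1 - p.2‖ ≤ Real.log 4
        rw [← h5, Real.log_zero]; exact Real.log_nonneg (by norm_num)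
      · exact Real.log_le_log h5 h4
    rw [integral_const] at h3
    simp only [probReal_univ, one_smul] at h3
    calc Real.exp (∫ p : ℂ × ℂ, Real.log ‖p.1 - p.2‖ ∂(m.prod m)) ≤ Real.exp (Real.log 4) :=
          Real.exp_le_exp.2 h3
      _ = 4 := Real.exp_log (by norm_num)
  refine le_trans ?_ (le_csSup hbdd hmem)
  rw [hval]
  exact Real.exp_le_exp.2 energy_nu

lemma rect_isCompact (η : ℝ) : IsCompact (rect η) := by
  have h : rect η = (Icc (-1) 1 : Set ℝ) ×ℂ (Icc (-η) η) := by
    ext z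
    simp only [rect, mem_ofPred_eq, Complex.mem_reProdIm, mem_Icc, abs_le]
  rw [h]
  exact isCompact_Icc.reProdIm isCompact_Icc

lemma rect_isConnected {η : ℝ} (hη : 0 ≤ η) : IsConnected (rect η) := by
  have h : rect η = (Icc (-1) 1 : Set ℝ) ×ℂ (Icc (-η) η) := by
    ext z
    simp only [rect, mem_ofPred_eq, Complex.mem_reProdIm, mem_Icc, abs_le]
  rw [h]
  refine ⟨⟨0, ?_⟩, ?_⟩
  · simp [Complex.mem_reProdIm, hη]
  · have hc : Convex ℝ ((Icc (-1) 1 : Set ℝ) ×ℂ (Icc (-η) η)) := by
      have h1 : Convex ℝ (Complex.reCLM ⁻¹' (Icc (-1) 1 : Set ℝ)) :=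
        (convex_Icc (-1 : ℝ) 1).is_linear_preimage Complex.reCLM.isLinear
      have h2 : Convex ℝ (Complex.imCLM ⁻¹' (Icc (-η) η : Set ℝ)) :=
        (convex_Icc (-η) η).is_linear_preimage Complex.imCLM.isLinear
      exact h1.inter h2
    exact hc.isPreconnected

lemma rect_interior {η : ℝ} (hη : 0 < η) : (interior (rect η)).Nonempty := by
  refine ⟨0, ?_⟩
  rw [mem_interior]
  refine ⟨{z : ℂ | |z.re| < 1 ∧ |z.im| < η}, ?_, ?_, ?_⟩
  · intro z hz
    exact ⟨hz.1.le, hz.2.le⟩
  · exact (isOpen_lt (Complex.continuous_re.abs) continuous_const).inter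
      (isOpen_lt (Complex.continuous_im.abs) continuous_const)
  · simp [hη]

end Pool.Agent.L5helper98.GEF
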