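import Mathlib

/-!
# The Gaussian entire function and the logarithmic capacity: definitions (helper98)
-/

set_option autoImplicit false
open MeasureTheory ProbabilityTheory

namespace Pool.Agent.L5helper98.GEF

/-- The law of a standard complex Gaussian variable: density `exp (-|w|²) / π` on `ℂ`. -/
noncomputable def stdC : Measure ℂ :=
  volume.withDensity (fun w => ENNReal.ofReal (Real.exp (-‖w‖ ^ 2) / Real.pi))

/-- `ξ 0, ξ 1, …` are independent standard complex Gaussian variables on the probability space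
`(Ω, P)`. -/
def IsGaussSeq {Ω : Type} [MeasurableSpace Ω] (P : Measure Ω) (ξ : ℕ → Ω → ℂ) : Prop :=
  IsProbabilityMeasure P ∧ (∀ n, Measurable (ξ n)) ∧ (∀ n, P.map (ξ n) = stdC) ∧ iIndepFun ξ P

/-- The Gaussian entire function `f(z) = ∑ ξ_n z^n / √(n!)`. -/
noncomputable def gef {Ω : Type} (ξ : ℕ → Ω → ℂ) (ω : Ω) (z : ℂ) : ℂ :=
  ∑' n : ℕ, ξ n ω * (z ^ n / ((Real.sqrt (n.factorial : ℝ) : ℝ) : ℂ))

/-- The hole event: `f` has no zero in `r K`. -/
def hole {Ω : Type} (ξ : ℕ → Ω → ℂ) (K : Set ℂ) (r : ℝ) : Set Ω :=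
  {ω | ∀ z ∈ K, gef ξ ω ((r : ℂ) * z) ≠ 0}

/-- The hole probability exponent `- log P(f has no zero in r K)`. -/
noncomputable def holeExp {Ω : Type} [MeasurableSpace Ω] (P : Measure Ω) (ξ : ℕ → Ω → ℂ)
    (K : Set ℂ) (r : ℝ) : ℝ := -Real.log (P.real (hole ξ K r))

/-- The logarithmic capacity of a compact set `K`: the supremum of
`exp (∬ log |z - w| dμ(z) dμ(w))` over the probability measures `μ` on `K` without atoms and with
finite logarithmic energy. -/
noncomputable def logCap (K : Set ℂ) : ℝ :=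
  sSup {c : ℝ | ∃ μ : Measure ℂ, IsProbabilityMeasure μ ∧ μ Kᶜ = 0 ∧ (∀ z, μ {z} = 0) ∧
    Integrable (fun p : ℂ × ℂ => Real.log ‖p.1 - p.2‖) (μ.prod μ) ∧
    c = Real.exp (∫ p : ℂ × ℂ, Real.log ‖p.1 - p.2‖ ∂(μ.prod μ))}

/-- The closed rectangle `[-1, 1] × [-η, η]`. -/
def rect (η : ℝ) : Set ℂ := {z | |z.re| ≤ 1 ∧ |z.im| ≤ η}

end Pool.Agent.L5helper98.GEF
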