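import Pool.Agent.L5helper98.GEF.Gauss

/-!
# Existence of a sequence of independent standard complex Gaussian variables (helper98)
-/

set_option autoImplicit false
open MeasureTheory ProbabilityTheory Filter Topology Set
open scoped ENNReal NNReal

namespace Pool.Agent.L5helper98.GEF

theorem exists_isGaussSeq : ∃ (Ω : Type) (_ : MeasurableSpace Ω) (P : Measure Ω) (ξ : ℕ → Ω → ℂ),
    IsGaussSeq P ξ := by
  refine ⟨ℕ → ℂ, inferInstance, Measure.infinitePi (fun _ : ℕ => stdC), fun n ω => ω n,
    inferInstance, fun n => measurable_pi_apply n, fun n => Measure.infinitePi_map_eval _ n, ?_⟩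
  exact iIndepFun_infinitePi (P := fun _ : ℕ => stdC) (X := fun _ x => x) (fun _ => measurable_id)

end Pool.Agent.L5helper98.GEF
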