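import Pool.Agent.L5helper98.GEF.Defs

/-!
# Probabilities of discs for the standard complex Gaussian law (helper98)
-/

set_option autoImplicit false
open MeasureTheory ProbabilityTheory Filter Topology Set
open scoped ENNReal NNReal

namespace Pool.Agent.L5helper98.GEF

lemma integral_q0 : ∫ x : ℂ, Real.exp (-‖x‖ ^ 2) = Real.pi := by
  have h := Complex.integral_rpow_mul_exp_neg_rpow (p := 2) (q := 0) (by norm_num) (by norm_num)
  simp only [Real.rpow_zero, one_mul, zero_add] at h
  have h1 : ∀ x : ℂ, Real.exp (-‖x‖ ^ 2) = Real.exp (-‖x‖ ^ (2 : ℝ)) := by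
    intro x; rw [Real.rpow_two]
  simp_rw [h1, h]
  norm_num

lemma integral_q2 : ∫ x : ℂ, ‖x‖ ^ 2 * Real.exp (-‖x‖ ^ 2) = Real.pi := by
  have h := Complex.integral_rpow_mul_exp_neg_rpow (p := 2) (q := 2) (by norm_num) (by norm_num)
  have h1 : ∀ x : ℂ, ‖x‖ ^ 2 * Real.exp (-‖x‖ ^ 2) =
      ‖x‖ ^ (2 : ℝ) * Real.exp (-‖x‖ ^ (2 : ℝ)) := by
    intro x; rw [Real.rpow_two]
  simp_rw [h1, h]
  have h2 : ((2 : ℝ) + 2) / 2 = 1 + 1 := by norm_num
  rw [h2, Real.Gamma_add_one one_ne_zero, Real.Gamma_one]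
  norm_num

instance : IsProbabilityMeasure stdC := by
  constructor
  unfold stdC
  rw [withDensity_apply _ MeasurableSet.univ, Measure.restrict_univ,
    ← ofReal_integral_eq_lintegral_ofReal]
  · rw [integral_div, integral_q0, div_self Real.pi_ne_zero, ENNReal.ofReal_one]
  · apply Integrable.div_const
    by_contra h
    have := integral_undef h
    rw [integral_q0] at this
    exact Real.pi_ne_zero this
  · exact Filter.Eventually.of_forall fun x => by positivity

lemma ball_lower (b : ℂ) {a : ℝ} (ha : 0 ≤ a) :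
    ENNReal.ofReal (a ^ 2 * Real.exp (-(‖b‖ + a) ^ 2)) ≤ stdC (Metric.closedBall b a) := by
  unfold stdC
  rw [withDensity_apply _ Metric.isClosed_closedBall.measurableSet]
  calc ENNReal.ofReal (a ^ 2 * Real.exp (-(‖b‖ + a) ^ 2))
      = ∫⁻ _ in Metric.closedBall b a, ENNReal.ofReal (Real.exp (-(‖b‖ + a) ^ 2) / Real.pi) := by
        rw [setLIntegral_const, Complex.volume_closedBall]
        have h1 : ((NNReal.pi : ℝ≥0) : ℝ≥0∞) = ENNReal.ofReal Real.pi := by
          rw [ENNReal.ofReal, Real.toNNReal_of_nonneg Real.pi_pos.le]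
          rfl
        rw [h1, ← ENNReal.ofReal_pow ha, ← ENNReal.ofReal_mul (by positivity),
          ← ENNReal.ofReal_mul (by positivity)]
        congr 1
        have := Real.pi_ne_zero
        field_simp
    _ ≤ _ := by
        apply setLIntegral_mono
        · fun_prop
        · intro w hw
          apply ENNReal.ofReal_le_ofReal
          apply div_le_div_of_nonneg_right _ Real.pi_pos.le
          apply Real.exp_le_exp.2
          have h2 : ‖w‖ ≤ ‖b‖ + a := by
            have h3 : ‖w - b‖ ≤ a := by rwa [← dist_eq_norm]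
            calc ‖w‖ = ‖(w - b) + b‖ := by ring_nf
              _ ≤ ‖w - b‖ + ‖b‖ := norm_add_le _ _
              _ ≤ ‖b‖ + a := by linarith
          have h4 : ‖w‖ ^ 2 ≤ (‖b‖ + a) ^ 2 := pow_le_pow_left₀ (norm_nonneg w) h2 2
          linarith

lemma tail_le {t : ℝ} (ht : 0 < t) :
    stdC {w | t ≤ ‖w‖} ≤ ENNReal.ofReal (1 / t ^ 2) := by
  have h1 : ∫⁻ w, ENNReal.ofReal (‖w‖ ^ 2) ∂stdC = 1 := by
    unfold stdC
    rw [lintegral_withDensity_eq_lintegral_mul _ (by fun_prop) (by fun_prop)]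
    simp only [Pi.mul_apply]
    have h2 : ∀ w : ℂ, ENNReal.ofReal (Real.exp (-‖w‖ ^ 2) / Real.pi) * ENNReal.ofReal (‖w‖ ^ 2)
        = ENNReal.ofReal ((‖w‖ ^ 2 * Real.exp (-‖w‖ ^ 2)) / Real.pi) := by
      intro w
      rw [← ENNReal.ofReal_mul (by positivity)]
      congr 1
      ring
    simp_rw [h2]
    rw [← ofReal_integral_eq_lintegral_ofReal]
    · rw [integral_div, integral_q2, div_self Real.pi_ne_zero, ENNReal.ofReal_one]
    · apply Integrable.div_const
      by_contra h
      have := integral_undef h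
      rw [integral_q2] at this
      exact Real.pi_ne_zero this
    · exact Filter.Eventually.of_forall fun x => by positivity
  have h3 := mul_meas_ge_le_lintegral₀ (μ := stdC) (f := fun w => ENNReal.ofReal (‖w‖ ^ 2))
    (by fun_prop) (ENNReal.ofReal (t ^ 2))
  rw [h1] at h3
  have h4 : {w : ℂ | t ≤ ‖w‖} ⊆ {w | ENNReal.ofReal (t ^ 2) ≤ ENNReal.ofReal (‖w‖ ^ 2)} := by
    intro w hw
    exact ENNReal.ofReal_le_ofReal (pow_le_pow_left₀ ht.le hw 2)
  have h5 : ENNReal.ofReal (t ^ 2) * stdC {w | t ≤ ‖w‖} ≤ 1 :=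
    (mul_le_mul_right (measure_mono h4) _).trans h3
  have h6 : (0 : ℝ) < t ^ 2 := by positivity
  rw [one_div, ENNReal.ofReal_inv_of_pos h6]
  rw [ENNReal.le_inv_iff_mul_le, mul_comm]
  exact h5

end Pool.Agent.L5helper98.GEF
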