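import Pool.Agent.L5helper98.GEF.Analytic

/-!
# The hole probability of a flat rectangle is at least `exp (-65 η² r⁴)` (helper98)
-/

set_option autoImplicit false
open MeasureTheory ProbabilityTheory Filter Topology Set
open scoped ENNReal NNReal

namespace Pool.Agent.L5helper98.GEF

lemma event_subset {Ω : Type} (ξ : ℕ → Ω → ℂ) {η r a : ℝ} {N : ℕ} (hη0 : 0 < η) (hη1 : η ≤ 1)
    (hr : 1 ≤ r) (ha : a = Real.exp (-(η ^ 2 * r ^ 2)) / (4 * ((N : ℝ) + 1)))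
    (hN : 30 * r ^ 2 ≤ N) :
    {ω | (∀ n ≤ N, ‖ξ n ω - bc n‖ ≤ a) ∧ ∀ n, N < n → ‖ξ n ω - bc n‖ ≤ 2 ^ n} ⊆
      hole ξ (rect η) r := by
  rintro ω ⟨h1, h2⟩ z ⟨hx, hy⟩
  have hN1 : (0 : ℝ) < (N : ℝ) + 1 := by positivity
  have ha0 : 0 < a := by rw [ha]; positivity
  have hx2 : z.re ^ 2 ≤ 1 := by
    have := (sq_le_sq' (by linarith [abs_nonneg z.re]) hx : |z.re| ^ 2 ≤ 1 ^ 2)
    rwa [sq_abs, one_pow] at this
  have hy2 : z.im ^ 2 ≤ η ^ 2 := by
    have := (sq_le_sq' (by linarith [abs_nonneg z.im]) hy : |z.im| ^ 2 ≤ η ^ 2)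
    rwa [sq_abs] at this
  have hη2 : η ^ 2 ≤ 1 := by nlinarith
  have hnorm : ‖(r : ℂ) * z‖ ^ 2 = r ^ 2 * (z.re ^ 2 + z.im ^ 2) := by
    rw [norm_mul, mul_pow, Complex.norm_real, Real.norm_eq_abs, sq_abs, ← Complex.normSq_eq_norm_sq,
      Complex.normSq_apply]
    ring
  have hre : (((r : ℂ) * z) ^ 2 / 2).re = r ^ 2 * (z.re ^ 2 - z.im ^ 2) / 2 := by
    have h3 : ((r : ℂ) * z) ^ 2 / 2 = (((r ^ 2 / 2 : ℝ) : ℂ)) * (z * z) := by
      push_cast; ring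
    rw [h3, Complex.re_ofReal_mul, Complex.mul_re]
    ring
  have hr2 : 1 ≤ r ^ 2 := by nlinarith
  unfold gef
  apply ne_zero_of_close (R := r ^ 2) (N := N) ha0 hr2 h1 h2
  · rw [hnorm]; nlinarith
  · rw [hre]; nlinarith [sq_nonneg z.re]
  · rw [hnorm, hre, ha]
    have h4 : ((N : ℝ) + 1) * (Real.exp (-(η ^ 2 * r ^ 2)) / (4 * ((N : ℝ) + 1))) *
        Real.exp (r ^ 2 * (z.re ^ 2 + z.im ^ 2) / 2) =
        1 / 4 * Real.exp (-(η ^ 2 * r ^ 2) + r ^ 2 * (z.re ^ 2 + z.im ^ 2) / 2) := by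
      rw [Real.exp_add]
      field_simp
    rw [h4]
    apply mul_le_mul_of_nonneg_left _ (by norm_num)
    apply Real.exp_le_exp.2
    nlinarith
  · exact hN

theorem hole_lower {Ω : Type} [MeasurableSpace Ω] {P : Measure Ω} {ξ : ℕ → Ω → ℂ}
    (h : IsGaussSeq P ξ) {η r : ℝ} (hη0 : 0 < η) (hη1 : η ≤ 1) (hr : 577 / η ^ 2 ≤ r) :
    Real.exp (-(65 * η ^ 2 * r ^ 4)) ≤ P.real (hole ξ (rect η) r) := by
  have := h.1
  have hη2 : η ^ 2 ≤ 1 := by nlinarith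
  have hη2' : 0 < η ^ 2 := by positivity
  have hr577 : 577 ≤ η ^ 2 * r := by
    rw [div_le_iff₀ hη2'] at hr
    linarith
  have hr0 : 0 < r := by
    by_contra hneg
    push Not at hneg
    nlinarith
  have hr1 : 1 ≤ r := by nlinarith
  set N := ⌈30 * r ^ 2⌉₊ with hNdef
  have hN : 30 * r ^ 2 ≤ N := Nat.le_ceil _
  have hN' : (N : ℝ) < 30 * r ^ 2 + 1 := Nat.ceil_lt_add_one (by positivity)
  have hr2 : 1 ≤ r ^ 2 := by nlinarith
  have hN1 : (N : ℝ) + 1 ≤ 32 * r ^ 2 := by linarith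
  have hNpos : 1 ≤ N := by
    have : (0 : ℝ) < N := by linarith
    exact_mod_cast this
  set a : ℝ := Real.exp (-(η ^ 2 * r ^ 2)) / (4 * ((N : ℝ) + 1)) with ha
  have hNp : (0 : ℝ) < (N : ℝ) + 1 := by positivity
  have ha0 : 0 < a := by rw [ha]; positivity
  have ha1 : a ≤ 1 := by
    rw [ha, div_le_one (by positivity)]
    have : Real.exp (-(η ^ 2 * r ^ 2)) ≤ 1 := Real.exp_le_one_iff.2 (by
      have : 0 ≤ η ^ 2 * r ^ 2 := by positivity
      linarith)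
    linarith
  have hbox := box_prob h (b := bc) bc_norm_le ha0 ha1 hNpos
  have hsub := event_subset ξ hη0 hη1 hr1 ha hN
  have hmono : P.real {ω | (∀ n ≤ N, ‖ξ n ω - bc n‖ ≤ a) ∧ ∀ n, N < n → ‖ξ n ω - bc n‖ ≤ 2 ^ n}
      ≤ P.real (hole ξ (rect η) r) := measureReal_mono hsub
  refine le_trans ?_ (hbox.trans hmono)
  -- take logarithms
  have hpos : 0 < 1 / 2 * (a ^ 2 * Real.exp (-4)) ^ (N + 1) := by positivity
  rw [← Real.le_log_iff_exp_le hpos]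
  have hlog : Real.log (1 / 2 * (a ^ 2 * Real.exp (-4)) ^ (N + 1)) =
      -Real.log 2 - ((N : ℝ) + 1) * (2 * (η ^ 2 * r ^ 2) + 2 * Real.log (4 * ((N : ℝ) + 1)) + 4) := by
    have hla : Real.log a = -(η ^ 2 * r ^ 2) - Real.log (4 * ((N : ℝ) + 1)) := by
      rw [ha, Real.log_div (by positivity) (by positivity), Real.log_exp]
    rw [Real.log_mul (by norm_num) (by positivity), Real.log_pow, Real.log_mul (by positivity)
      (by positivity), Real.log_pow, Real.log_exp, hla, one_div, Real.log_inv]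
    push_cast
    ring
  rw [hlog]
  have hl2 : Real.log 2 ≤ 1 := by linarith [Real.log_two_lt_d9]
  have hl : Real.log (4 * ((N : ℝ) + 1)) ≤ 5 + 2 * r := by
    have h1 : Real.log (4 * ((N : ℝ) + 1)) ≤ Real.log (128 * r ^ 2) := by
      apply Real.log_le_log (by positivity)
      linarith
    have h2 : Real.log (128 * r ^ 2) = Real.log 128 + 2 * Real.log r := by
      rw [Real.log_mul (by norm_num) (by positivity), Real.log_pow]
      norm_num
    have h3 : Real.log 128 ≤ 5 := by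
      have : (128 : ℝ) = 2 ^ 7 := by norm_num
      rw [this, Real.log_pow]
      push_cast
      linarith [Real.log_two_lt_d9]
    have h4 : Real.log r ≤ r := (Real.log_le_sub_one_of_pos hr0).trans (by linarith)
    linarith
  have hbr : ((N : ℝ) + 1) * (2 * (η ^ 2 * r ^ 2) + 2 * Real.log (4 * ((N : ℝ) + 1)) + 4) ≤
      32 * r ^ 2 * (2 * (η ^ 2 * r ^ 2) + 2 * (5 + 2 * r) + 4) := by
    apply mul_le_mul hN1 _ _ (by positivity)
    · linarith
    · have h5 : 0 ≤ Real.log (4 * ((N : ℝ) + 1)) := Real.log_nonneg (by linarith)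
      have h6 : 0 ≤ η ^ 2 * r ^ 2 := by positivity
      linarith
  have h7 : 32 * r ^ 2 * (2 * (5 + 2 * r) + 4) + 1 ≤ 577 * r ^ 3 := by
    have h8 : r ^ 2 ≤ r ^ 3 := by
      have : r ^ 3 = r ^ 2 * r := by ring
      nlinarith
    have h9 : (1 : ℝ) ≤ r ^ 3 := le_trans hr2 h8
    nlinarith
  have h10 : 577 * r ^ 3 ≤ η ^ 2 * r ^ 4 := by
    have h11 : 577 * r ^ 3 ≤ (η ^ 2 * r) * r ^ 3 :=
      mul_le_mul_of_nonneg_right hr577 (by positivity)
    calc 577 * r ^ 3 ≤ (η ^ 2 * r) * r ^ 3 := h11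
      _ = η ^ 2 * r ^ 4 := by ring
  have h12 : 32 * r ^ 2 * (2 * (η ^ 2 * r ^ 2) + 2 * (5 + 2 * r) + 4) =
      64 * η ^ 2 * r ^ 4 + 32 * r ^ 2 * (2 * (5 + 2 * r) + 4) := by ring
  linarith

end Pool.Agent.L5helper98.GEF
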