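import Pool.Agent.L5helper98.GEF.Gauss

/-!
# A lower bound for the probability of a box of coefficients (helper98)
-/

set_option autoImplicit false
open MeasureTheory ProbabilityTheory Filter Topology Set
open scoped ENNReal NNReal

namespace Pool.Agent.L5helper98.GEF

lemma one_sub_sum_le (x : ℕ → ℝ) (h0 : ∀ j, 0 ≤ x j) (h1 : ∀ j, x j ≤ 1) (k : ℕ) :
    1 - ∑ j ∈ Finset.range k, x j ≤ ∏ j ∈ Finset.range k, (1 - x j) := by
  induction k with
  | zero => simp
  | succ k ih =>
    rw [Finset.sum_range_succ, Finset.prod_range_succ]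
    have hp : ∏ j ∈ Finset.range k, (1 - x j) ≤ 1 := by
      apply Finset.prod_le_one
      · intro j _; linarith [h1 j]
      · intro j _; linarith [h0 j]
    nlinarith [h0 k, h1 k]

lemma box_prob {Ω : Type} [MeasurableSpace Ω] {P : Measure Ω} {ξ : ℕ → Ω → ℂ}
    (h : IsGaussSeq P ξ) {b : ℕ → ℂ} (hb : ∀ n, ‖b n‖ ≤ 1) {a : ℝ} (ha0 : 0 < a) (ha1 : a ≤ 1)
    {N : ℕ} (hN : 1 ≤ N) :
    1 / 2 * (a ^ 2 * Real.exp (-4)) ^ (N + 1) ≤
      P.real {ω | (∀ n ≤ N, ‖ξ n ω - b n‖ ≤ a) ∧ ∀ n, N < n → ‖ξ n ω - b n‖ ≤ 2 ^ n} := by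
  obtain ⟨hP, hm, hlaw, hind⟩ := h
  set ρ : ℕ → ℝ := fun n => if n ≤ N then a else 2 ^ n with hρ
  set A : ℕ → Set Ω := fun n => ξ n ⁻¹' (Metric.closedBall (b n) (ρ n)) with hA
  have hAm : ∀ n, MeasurableSet (A n) := fun n => hm n Metric.isClosed_closedBall.measurableSet
  have hPA : ∀ n, P.real (A n) = stdC.real (Metric.closedBall (b n) (ρ n)) := by
    intro n
    rw [← hlaw n, map_measureReal_apply (hm n) Metric.isClosed_closedBall.measurableSet]
  have hsmall : ∀ n ≤ N, a ^ 2 * Real.exp (-4) ≤ P.real (A n) := by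
    intro n hn
    rw [hPA]
    have hρn : ρ n = a := if_pos hn
    rw [hρn]
    have h1 := ball_lower (b n) ha0.le
    have h2 : a ^ 2 * Real.exp (-4) ≤ a ^ 2 * Real.exp (-(‖b n‖ + a) ^ 2) := by
      apply mul_le_mul_of_nonneg_left _ (by positivity)
      apply Real.exp_le_exp.2
      have : (‖b n‖ + a) ^ 2 ≤ 2 ^ 2 := by
        apply pow_le_pow_left₀ (by positivity)
        linarith [hb n]
      linarith
    refine h2.trans ?_
    rw [measureReal_def]
    exact (ENNReal.ofReal_le_iff_le_toReal (measure_ne_top _ _)).1 h1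
  have hlarge : ∀ j, 1 - (1 / 4 : ℝ) ^ (N + j) ≤ P.real (A (N + 1 + j)) := by
    intro j
    rw [hPA]
    set n := N + 1 + j with hn
    have hρn : ρ n = 2 ^ n := if_neg (by omega)
    rw [hρn]
    have hcompl : stdC.real (Metric.closedBall (b n) (2 ^ n)) =
        1 - stdC.real (Metric.closedBall (b n) (2 ^ n))ᶜ := by
      rw [measureReal_compl Metric.isClosed_closedBall.measurableSet, probReal_univ]
      ring
    rw [hcompl]
    have h2 : (Metric.closedBall (b n) ((2 : ℝ) ^ n))ᶜ ⊆ {w : ℂ | (2 : ℝ) ^ (N + j) ≤ ‖w‖} := by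
      intro w hw
      simp only [mem_compl_iff, Metric.mem_closedBall, not_le, dist_eq_norm] at hw
      have h3 : ‖w - b n‖ ≤ ‖w‖ + ‖b n‖ := norm_sub_le _ _
      have h4 : (2 : ℝ) ^ n = 2 * 2 ^ (N + j) := by rw [hn]; ring
      have h5 : (1 : ℝ) ≤ 2 ^ (N + j) := one_le_pow₀ (by norm_num)
      show (2 : ℝ) ^ (N + j) ≤ ‖w‖
      linarith [hb n]
    have h6 : stdC.real (Metric.closedBall (b n) ((2 : ℝ) ^ n))ᶜ ≤ (1 / 4 : ℝ) ^ (N + j) := by
      have h7 := (measure_mono h2).trans (tail_le (t := (2 : ℝ) ^ (N + j)) (by positivity))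
      rw [measureReal_def]
      have h8 : (1 / 4 : ℝ) ^ (N + j) = 1 / ((2 : ℝ) ^ (N + j)) ^ 2 := by
        rw [← pow_mul, mul_comm, pow_mul, one_div, one_div, inv_pow]
        norm_num
      rw [h8]
      exact ENNReal.toReal_le_of_le_ofReal (by positivity) h7
    linarith
  -- finite intersections
  have hfin : ∀ k : ℕ, 1 / 2 * (a ^ 2 * Real.exp (-4)) ^ (N + 1) ≤
      P.real (⋂ n ∈ Finset.range (N + 1 + k), A n) := by
    intro k
    have h1 := hind.measure_inter_preimage_eq_mul (Finset.range (N + 1 + k))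
      (sets := fun n => Metric.closedBall (b n) (ρ n))
      (fun n _ => Metric.isClosed_closedBall.measurableSet)
    have h2 : P.real (⋂ n ∈ Finset.range (N + 1 + k), A n)
        = ∏ n ∈ Finset.range (N + 1 + k), P.real (A n) := by
      rw [measureReal_def, h1, ENNReal.toReal_prod]
      rfl
    rw [h2, Finset.prod_range_add]
    have h3 : (a ^ 2 * Real.exp (-4)) ^ (N + 1) ≤ ∏ n ∈ Finset.range (N + 1), P.real (A n) := by
      rw [← Finset.card_range (N + 1), ← Finset.prod_const]
      simp only [Finset.card_range]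
      apply Finset.prod_le_prod
      · intro n _; positivity
      · intro n hn
        exact hsmall n (Nat.lt_succ_iff.1 (Finset.mem_range.1 hn))
    have h4 : (1 / 2 : ℝ) ≤ ∏ j ∈ Finset.range k, P.real (A (N + 1 + j)) := by
      have h5 : ∏ j ∈ Finset.range k, (1 - (1 / 4 : ℝ) ^ (N + j)) ≤
          ∏ j ∈ Finset.range k, P.real (A (N + 1 + j)) := by
        apply Finset.prod_le_prod
        · intro j _
          have : (1 / 4 : ℝ) ^ (N + j) ≤ 1 := pow_le_one₀ (by norm_num) (by norm_num)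
          linarith
        · intro j _; exact hlarge j
      refine le_trans ?_ h5
      refine le_trans ?_ (one_sub_sum_le (fun j => (1 / 4 : ℝ) ^ (N + j))
        (fun j => by positivity) (fun j => pow_le_one₀ (by norm_num) (by norm_num)) k)
      have h6 : ∑ j ∈ Finset.range k, (1 / 4 : ℝ) ^ (N + j) ≤ 1 / 2 := by
        have h7 : ∀ j, (1 / 4 : ℝ) ^ (N + j) ≤ (1 / 4) * (1 / 4) ^ j := by
          intro j
          rw [pow_add]
          apply mul_le_mul_of_nonneg_right _ (by positivity)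
          calc (1 / 4 : ℝ) ^ N ≤ (1 / 4 : ℝ) ^ 1 :=
                pow_le_pow_of_le_one (by norm_num) (by norm_num) hN
            _ = 1 / 4 := pow_one _
        calc ∑ j ∈ Finset.range k, (1 / 4 : ℝ) ^ (N + j)
            ≤ ∑ j ∈ Finset.range k, (1 / 4 : ℝ) * (1 / 4) ^ j := Finset.sum_le_sum fun j _ => h7 j
          _ = 1 / 4 * ∑ j ∈ Finset.range k, (1 / 4 : ℝ) ^ j := by rw [Finset.mul_sum]
          _ ≤ 1 / 4 * (4 / 3) := by
            apply mul_le_mul_of_nonneg_left _ (by norm_num)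
            rw [geom_sum_eq (by norm_num)]
            have : (0 : ℝ) ≤ (1 / 4 : ℝ) ^ k := by positivity
            have h8 : ((1 / 4 : ℝ) ^ k - 1) / (1 / 4 - 1) = (4 / 3) * (1 - (1 / 4) ^ k) := by ring
            rw [h8]
            linarith
          _ ≤ 1 / 2 := by norm_num
      linarith
    calc 1 / 2 * (a ^ 2 * Real.exp (-4)) ^ (N + 1)
        = (a ^ 2 * Real.exp (-4)) ^ (N + 1) * (1 / 2) := by ring
      _ ≤ _ := mul_le_mul h3 h4 (by norm_num) (Finset.prod_nonneg fun _ _ => measureReal_nonneg)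
  -- the limit
  have hset : {ω | (∀ n ≤ N, ‖ξ n ω - b n‖ ≤ a) ∧ ∀ n, N < n → ‖ξ n ω - b n‖ ≤ 2 ^ n}
      = ⋂ k : ℕ, ⋂ n ∈ Finset.range (N + 1 + k), A n := by
    ext ω
    simp only [mem_ofPred_eq, mem_iInter, Finset.mem_range, hA, mem_preimage,
      Metric.mem_closedBall, dist_eq_norm, hρ]
    constructor
    · rintro ⟨h1, h2⟩ k n _
      split_ifs with hn
      · exact h1 n hn
      · exact h2 n (not_le.1 hn)
    · intro h1
      constructor
      · intro n hn
        have := h1 n n (by omega)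
        rwa [if_pos hn] at this
      · intro n hn
        have := h1 n n (by omega)
        rwa [if_neg (not_le.2 hn)] at this
  rw [hset]
  have hanti : Antitone (fun k : ℕ => ⋂ n ∈ Finset.range (N + 1 + k), A n) := by
    intro k l hkl
    apply biInter_subset_biInter_left
    intro n hn
    simp only [Finset.mem_range, Finset.mem_coe] at hn ⊢
    omega
  have hlim := tendsto_measure_iInter_atTop (μ := P)
    (s := fun k : ℕ => ⋂ n ∈ Finset.range (N + 1 + k), A n)
    (fun k => (MeasurableSet.biInter (Finset.countable_toSet _)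
      (fun n _ => hAm n)).nullMeasurableSet) hanti ⟨0, measure_ne_top _ _⟩
  have hlim' := (ENNReal.tendsto_toReal (measure_ne_top P _)).comp hlim
  exact ge_of_tendsto' hlim' (fun k => hfin k)

end Pool.Agent.L5helper98.GEF
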